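import Pool.Agent.H369R3.UT.Defs

set_option autoImplicit false

open Set Filter Topology Metric MeasureTheory

namespace Pool.Agent.H699

open Pool.Agent.H369R3.UT

theorem taskI2 : Pool.Agent.H369R3.UT.TaskI2 := by
  intro n f a R M hf
  have : ProperSpace (Cn n) := FiniteDimensional.proper_rclike ℂ _
  let S : Set (Cn n × Cn n) := {p | p.1 ∈ closedBall a R ∧ p.2 ∈ closedBall a R ∧
    ∀ z ∈ closedBall a R, f z - M / 2 * ‖z - p.2‖ ^ 2 ≤ f p.1 - M / 2 * ‖p.1 - p.2‖ ^ 2}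
  have hS : IsClosed S := by
    refine (isClosed_closedBall.preimage continuous_fst).inter
      ((isClosed_closedBall.preimage continuous_snd).inter ?_)
    have : {p : Cn n × Cn n | ∀ z ∈ closedBall a R,
        f z - M / 2 * ‖z - p.2‖ ^ 2 ≤ f p.1 - M / 2 * ‖p.1 - p.2‖ ^ 2} =
        ⋂ z ∈ closedBall a R, {p : Cn n × Cn n |
          f z - M / 2 * ‖z - p.2‖ ^ 2 ≤ f p.1 - M / 2 * ‖p.1 - p.2‖ ^ 2} := by
      ext p; simp
    change IsClosed {p : Cn n × Cn n | ∀ z ∈ closedBall a R,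
        f z - M / 2 * ‖z - p.2‖ ^ 2 ≤ f p.1 - M / 2 * ‖p.1 - p.2‖ ^ 2}
    rw [this]
    refine isClosed_biInter fun z _ => isClosed_le ?_ ?_
    · fun_prop
    · have := hf.comp (continuous_fst (X := Cn n) (Y := Cn n))
      exact this.sub (by fun_prop)
  have hc : IsCompact S :=
    ((isCompact_closedBall a R).prod (isCompact_closedBall a R)).of_isClosed_subset hS
      (fun p hp => ⟨hp.1, hp.2.1⟩)
  have himg : contact f a R M = Prod.fst '' S := by
    ext x
    constructor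
    · rintro ⟨hx, y, hy, h⟩
      exact ⟨(x, y), ⟨hx, hy, h⟩, rfl⟩
    · rintro ⟨⟨x', y⟩, ⟨hx, hy, h⟩, rfl⟩
      exact ⟨hx, y, hy, h⟩
  rw [himg]
  exact (hc.image continuous_fst).isClosed

end Pool.Agent.H699
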