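import Pool.Agent.H74R6.LW.Stmts

set_option autoImplicit false

namespace Pool.Agent.H699.LWB

open Finset Polynomial
open Pool.Agent.H74R6.LW

variable {p : ℕ} [Fact p.Prime] {q : ℕ}

theorem exists_prim (hq : 1 ≤ q) (h : q ∣ p - 1) : ∃ ζ : ZMod p, IsPrimitiveRoot ζ q := by
  obtain ⟨g, hg⟩ := IsCyclic.exists_ofOrder_eq_natCard (α := (ZMod p)ˣ)
  have hc : Nat.card (ZMod p)ˣ = p - 1 := by
    rw [Nat.card_eq_fintype_card, ZMod.card_units_eq_totient, Nat.totient_prime Fact.out]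
  rw [hc] at hg
  have hp1 : 0 < p - 1 := by
    have := (Fact.out : p.Prime).two_le
    omega
  have h1 : IsPrimitiveRoot g (p - 1) := by
    rw [← hg]
    exact IsPrimitiveRoot.orderOf g
  have h2 : IsPrimitiveRoot (g ^ ((p - 1) / q)) q := h1.pow hp1 (Nat.div_mul_cancel h).symm
  exact ⟨((g ^ ((p - 1) / q) : (ZMod p)ˣ) : ZMod p), IsPrimitiveRoot.coe_units_iff.2 h2⟩

theorem dvd_of_splits (hq : 1 ≤ q) (hqp : (q : ZMod p) ≠ 0)
    (h : (X ^ q - 1 : (ZMod p)[X]).Splits) : q ∣ p - 1 := by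
  have hsep : (X ^ q - 1 : (ZMod p)[X]).Separable := X_pow_sub_one_separable_iff.2 hqp
  have hnd : (X ^ q - 1 : (ZMod p)[X]).roots.Nodup := nodup_roots hsep
  have hcard : (X ^ q - 1 : (ZMod p)[X]).roots.card = q := by
    rw [splits_iff_card_roots.1 h]
    exact natDegree_X_pow_sub_C (R := ZMod p) (r := 1)
  haveI : NeZero q := ⟨by omega⟩
  have hroots : nthRoots q (1 : ZMod p) = (X ^ q - 1 : (ZMod p)[X]).roots := by
    simp [nthRoots]
  have h3 : Nat.card (rootsOfUnity q (ZMod p)) = q := by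
    rw [Nat.card_congr (rootsOfUnityEquivNthRoots (ZMod p) q), hroots]
    rw [Nat.card_eq_fintype_card]
    rw [Fintype.card_of_subtype (X ^ q - 1 : (ZMod p)[X]).roots.toFinset
      (by intro x; simp)]
    rw [Multiset.toFinset_card_of_nodup hnd, hcard]
  have h4 := Subgroup.card_subgroup_dvd_card (rootsOfUnity q (ZMod p))
  rw [h3, Nat.card_eq_fintype_card, ZMod.card_units_eq_totient,
    Nat.totient_prime Fact.out] at h4
  exact h4

theorem splits_iff (hq : 1 ≤ q) (h : q ∣ p - 1) {c : ZMod p} (hc : c ≠ 0) :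
    (X ^ q - C c : (ZMod p)[X]).Splits ↔ c ^ ((p - 1) / q) = 1 := by
  have hp1 : 0 < p - 1 := by
    have := (Fact.out : p.Prime).two_le
    omega
  constructor
  · intro hs
    obtain ⟨x, hx⟩ := hs.exists_eval_eq_zero (by
      rw [degree_X_pow_sub_C (by omega)]
      exact_mod_cast (by omega : q ≠ 0))
    have hx' : x ^ q = c := by
      simpa [sub_eq_zero] using hx
    have hx0 : x ≠ 0 := by
      rintro rfl
      rw [zero_pow (by omega)] at hx'
      exact hc hx'.symm
    rw [← hx', ← pow_mul, Nat.mul_div_cancel' h]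
    exact ZMod.pow_card_sub_one_eq_one hx0
  · intro hc1
    obtain ⟨ζ, hζ⟩ := exists_prim hq h
    obtain ⟨g, hg⟩ := IsCyclic.exists_generator (α := (ZMod p)ˣ)
    obtain ⟨k, hk⟩ := (Submonoid.mem_powers_iff _ _).1
      ((mem_powers_iff_mem_zpowers).2 (hg (Units.mk0 c hc)))
    have hog : orderOf g = p - 1 := by
      rw [orderOf_eq_card_of_forall_mem_zpowers hg, Nat.card_eq_fintype_card,
        ZMod.card_units_eq_totient, Nat.totient_prime Fact.out]
    have h5 : g ^ (k * ((p - 1) / q)) = 1 := by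
      rw [pow_mul, hk]
      ext
      simpa using hc1
    have h6 := orderOf_dvd_of_pow_eq_one h5
    rw [hog] at h6
    have h7 : q ∣ k := by
      have he : 0 < (p - 1) / q := Nat.div_pos (Nat.le_of_dvd hp1 h) hq
      have h8 : q * ((p - 1) / q) ∣ k * ((p - 1) / q) := by
        rwa [Nat.mul_div_cancel' h]
      exact Nat.dvd_of_mul_dvd_mul_right he h8
    obtain ⟨r, rfl⟩ := h7
    have h9 : ((g : ZMod p) ^ r) ^ q = c := by
      have : ((g ^ (q * r) : (ZMod p)ˣ) : ZMod p) = c := by rw [hk]; rfl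
      rw [← this]
      push_cast
      rw [← pow_mul, mul_comm]
    exact X_pow_sub_C_splits_of_isPrimitiveRoot hζ h9

theorem cond_iff (hq : 1 ≤ q) (h : q ∣ p - 1) {n d : ZMod p} (hn : n ≠ 0) (hd : d ≠ 0) :
    (n * d ^ (q - 1)) ^ ((p - 1) / q) = 1 ↔ n ^ ((p - 1) / q) = d ^ ((p - 1) / q) := by
  set e := (p - 1) / q with he
  have h1 : d ^ ((q - 1) * e) * d ^ e = 1 := by
    rw [← pow_add]
    have : (q - 1) * e + e = p - 1 := by
      have h2 : (q - 1) * e + e = q * e := by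
        obtain ⟨s, rfl⟩ : ∃ s, q = s + 1 := ⟨q - 1, by omega⟩
        simp; ring
      rw [h2, he, Nat.mul_div_cancel' h]
    rw [this]
    exact ZMod.pow_card_sub_one_eq_one hd
  have hde : d ^ e ≠ 0 := pow_ne_zero _ hd
  rw [mul_pow, ← pow_mul]
  constructor
  · intro h3
    have h4 : n ^ e * d ^ ((q - 1) * e) * d ^ e = d ^ e := by rw [h3, one_mul]
    rwa [mul_assoc, h1, mul_one] at h4
  · intro h3
    rw [h3, mul_comm]
    exact h1

end Pool.Agent.H699.LWB

namespace Pool.Agent.H699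

open Finset Polynomial
open Pool.Agent.H74R6.LW LWB

theorem taskB : Pool.Agent.H74R6.LW.TaskB := by
  intro g hg W hW q hq
  refine ⟨q * ∏ a ∈ W, (a.num.natAbs * a.den), ?_, ?_⟩
  · apply Nat.mul_pos hq
    apply Finset.prod_pos
    intro a ha
    apply Nat.mul_pos _ a.den_pos
    rw [Int.natAbs_pos]
    exact Rat.num_ne_zero.2 (hW a ha)
  intro p hp hpm
  haveI : Fact p.Prime := ⟨hp⟩
  have hqp : (q : ZMod p) ≠ 0 := by
    rw [Ne, ZMod.natCast_eq_zero_iff]
    exact fun h => hpm (h.mul_right _)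
  have hnum : ∀ a ∈ W, (a.num : ZMod p) ≠ 0 := by
    intro a ha h
    rw [ZMod.intCast_zmod_eq_zero_iff_dvd, Int.natCast_dvd] at h
    exact hpm (((h.mul_right _).trans (Finset.dvd_prod_of_mem (fun a : ℚ => a.num.natAbs * a.den)
      ha)).mul_left _)
  have hden : ∀ a ∈ W, (a.den : ZMod p) ≠ 0 := by
    intro a ha h
    rw [ZMod.natCast_eq_zero_iff] at h
    exact hpm (((h.mul_left _).trans (Finset.dvd_prod_of_mem (fun a : ℚ => a.num.natAbs * a.den)
      ha)).mul_left _)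
  have hmap : (ff g W q).map (Int.castRingHom (ZMod p)) =
      g.map (Int.castRingHom (ZMod p)) * (X ^ q - 1) *
        ∏ a ∈ W, (X ^ q - C ((a.num : ZMod p) * (a.den : ZMod p) ^ (q - 1))) := by
    unfold ff
    rw [Polynomial.map_mul, Polynomial.map_mul, Polynomial.map_prod]
    congr 1
    · simp
    · refine Finset.prod_congr rfl fun a _ => ?_
      simp
  have hne : ∀ c : ZMod p, (X ^ q - C c : (ZMod p)[X]) ≠ 0 := fun c =>
    X_pow_sub_C_ne_zero (by omega) c
  have hne1 : (X ^ q - 1 : (ZMod p)[X]) ≠ 0 := by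
    have := hne 1
    rwa [map_one] at this
  have hg0 : g.map (Int.castRingHom (ZMod p)) ≠ 0 := (hg.map _).ne_zero
  rw [hmap, splits_mul (mul_ne_zero hg0 hne1) (Finset.prod_ne_zero_iff.2 fun a _ => hne _),
    splits_mul hg0 hne1, splits_prod_iff fun a _ => hne _]
  constructor
  · rintro ⟨⟨h1, h2⟩, h3⟩
    have hd := dvd_of_splits hq hqp h2
    refine ⟨h1, hd, fun a ha => ?_⟩
    rw [← cond_iff hq hd (hnum a ha) (hden a ha), ← splits_iff hq hd
      (mul_ne_zero (hnum a ha) (pow_ne_zero _ (hden a ha)))]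
    exact h3 a ha
  · rintro ⟨h1, hd, h3⟩
    refine ⟨⟨h1, ?_⟩, fun a ha => ?_⟩
    · obtain ⟨ζ, hζ⟩ := exists_prim (p := p) hq hd
      exact X_pow_sub_one_splits hζ
    · rw [splits_iff hq hd (mul_ne_zero (hnum a ha) (pow_ne_zero _ (hden a ha))),
        cond_iff hq hd (hnum a ha) (hden a ha)]
      exact h3 a ha

end Pool.Agent.H699
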